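import Mathlib

/-! The presentation of the alternating group by elements of order three (Carmichael). -/

set_option autoImplicit false

open Equiv Pointwise

namespace Pool.Agent.MP_62c071_al.H88

namespace Car

section Cosets

variable {G : Type} [Group G]

theorem inv_of_cube {t : G} (h : t ^ 3 = 1) : t⁻¹ = t * t :=
  inv_eq_of_mul_eq_one_right (by rw [← h, pow_succ', pow_two])

theorem swap_of_sq {t s : G} (h : (t * s) ^ 2 = 1) : t * s = s⁻¹ * t⁻¹ := by
  rw [← mul_inv_rev]
  exact eq_inv_of_mul_eq_one_left (by rw [← h, pow_two])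

/-- Coset enumeration. -/
theorem cover (T : Set G) (t : G) (ht : t ^ 3 = 1) (h3 : ∀ s ∈ T, s ^ 3 = 1)
    (h2 : ∀ s ∈ T, ∀ u ∈ T, s ≠ u → (s * u) ^ 2 = 1) (h4 : ∀ s ∈ T, (t * s) ^ 2 = 1)
    (h5 : ∀ s ∈ T, (s * t) ^ 2 = 1) {x : G} (hx : x ∈ Subgroup.closure (insert t T)) :
    ∃ r ∈ Subgroup.closure T, x = r ∨ x = r * t ∨ x = r * t⁻¹ ∨ ∃ s ∈ T, x = r * (t⁻¹ * s) := by
  have m : ∀ s ∈ T, s ∈ Subgroup.closure T := fun s hs => Subgroup.subset_closure hs
  have step : ∀ x : G, ∀ y ∈ insert t T, (∃ r ∈ Subgroup.closure T, x = r ∨ x = r * t ∨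
      x = r * t⁻¹ ∨ ∃ s ∈ T, x = r * (t⁻¹ * s)) → ∃ r ∈ Subgroup.closure T, x * y = r ∨
      x * y = r * t ∨ x * y = r * t⁻¹ ∨ ∃ s ∈ T, x * y = r * (t⁻¹ * s) := by
    rintro x y (rfl | hy) ⟨r, hr, rfl | rfl | rfl | ⟨s, hs, rfl⟩⟩
    · exact ⟨x, hr, Or.inr (Or.inl rfl)⟩
    · exact ⟨r, hr, Or.inr (Or.inr (Or.inl (by rw [mul_assoc, ← inv_of_cube ht])))⟩
    · exact ⟨r, hr, Or.inl (by group)⟩
    · refine ⟨r * s⁻¹, mul_mem hr (inv_mem (m s hs)), Or.inr (Or.inr (Or.inr ⟨s, hs, ?_⟩))⟩
      have e1 : y * y = y⁻¹ := (inv_of_cube ht).symm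
      have e2 : y⁻¹ * y⁻¹ = y := by rw [← mul_inv_rev, e1, inv_inv]
      calc r * (y⁻¹ * s) * y = r * (y⁻¹ * (s * y)) := by group
        _ = r * (y⁻¹ * y⁻¹ * s⁻¹) := by rw [swap_of_sq (h5 s hs)]; group
        _ = r * (y * s * s) := by rw [e2, inv_of_cube (h3 s hs)]; group
        _ = r * s⁻¹ * (y⁻¹ * s) := by rw [swap_of_sq (h4 s hs)]; group
    · exact ⟨x * y, mul_mem hr (m y hy), Or.inl rfl⟩
    · refine ⟨r * y⁻¹, mul_mem hr (inv_mem (m y hy)), Or.inr (Or.inr (Or.inl ?_))⟩
      rw [mul_assoc, swap_of_sq (h4 y hy), mul_assoc]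
    · exact ⟨r, hr, Or.inr (Or.inr (Or.inr ⟨y, hy, mul_assoc _ _ _⟩))⟩
    · have e : t⁻¹ * y⁻¹ = y * t := (swap_of_sq (h5 y hy)).symm
      by_cases c : s = y
      · subst c
        refine ⟨r * s, mul_mem hr (m s hs), Or.inr (Or.inl ?_)⟩
        calc r * (t⁻¹ * s) * s = r * (t⁻¹ * (s * s)) := by group
          _ = r * s * t := by rw [← inv_of_cube (h3 s hs), e, mul_assoc]
      · refine ⟨r * y * s⁻¹, mul_mem (mul_mem hr (m y hy)) (inv_mem (m s hs)),
          Or.inr (Or.inr (Or.inr ⟨s, hs, ?_⟩))⟩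
        calc r * (t⁻¹ * s) * y = r * (t⁻¹ * (s * y)) := by group
          _ = r * (t⁻¹ * y⁻¹ * s⁻¹) := by rw [swap_of_sq (h2 s hs y hy c)]; group
          _ = r * y * (t * s * s) := by rw [e, inv_of_cube (h3 s hs)]; group
          _ = r * y * s⁻¹ * (t⁻¹ * s) := by rw [swap_of_sq (h4 s hs)]; group
  induction hx using Subgroup.closure_induction_right with
  | one => exact ⟨1, one_mem _, Or.inl rfl⟩
  | mul_right x _ y hy ih => exact step x y hy ih
  | mul_inv_cancel x _ y hy ih =>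
    have : y ^ 3 = 1 := by
      rcases hy with rfl | hy
      · exact ht
      · exact h3 y hy
    rw [inv_of_cube this, ← mul_assoc]
    exact step _ y hy (step x y hy ih)

/-- The order of the group generated is at most `(|T| + 2)! / 2`. -/
theorem card_le (T : Finset G) (h3 : ∀ s ∈ T, s ^ 3 = 1)
    (h2 : ∀ s ∈ T, ∀ u ∈ T, s ≠ u → (s * u) ^ 2 = 1) :
    (Subgroup.closure (T : Set G) : Set G).Finite ∧
      2 * Nat.card (Subgroup.closure (T : Set G)) ≤ (T.card + 2).factorial := by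
  classical
  induction T using Finset.induction_on with
  | empty => simp
  | insert t T ht ih =>
    obtain ⟨f, c⟩ := ih (fun s hs => h3 s (Finset.mem_insert_of_mem hs))
      fun s hs u hu => h2 s (Finset.mem_insert_of_mem hs) u (Finset.mem_insert_of_mem hu)
    have ne : ∀ s ∈ T, t ≠ s := fun s hs e => ht (e ▸ hs)
    let C : Finset G := insert 1 (insert t (insert t⁻¹ (T.image fun s => t⁻¹ * s)))
    have hC : C.card ≤ T.card + 3 := by
      have a1 := Finset.card_insert_le (1 : G) (insert t (insert t⁻¹ (T.image fun s => t⁻¹ * s)))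
      have a2 := Finset.card_insert_le t (insert t⁻¹ (T.image fun s => t⁻¹ * s))
      have a3 := Finset.card_insert_le t⁻¹ (T.image fun s => t⁻¹ * s)
      have a4 := Finset.card_image_le (s := T) (f := fun s => t⁻¹ * s)
      simp only [C]
      omega
    have sub : (Subgroup.closure ((insert t T : Finset G) : Set G) : Set G) ⊆
        (Subgroup.closure (T : Set G) : Set G) * (C : Set G) := by
      intro x hx
      rw [Finset.coe_insert] at hx
      obtain ⟨r, hr, h⟩ := cover (T : Set G) t (h3 t (Finset.mem_insert_self _ _))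
        (fun s hs => h3 s (Finset.mem_insert_of_mem hs))
        (fun s hs u hu => h2 s (Finset.mem_insert_of_mem hs) u (Finset.mem_insert_of_mem hu))
        (fun s hs => h2 t (Finset.mem_insert_self _ _) s (Finset.mem_insert_of_mem hs) (ne s hs))
        (fun s hs => h2 s (Finset.mem_insert_of_mem hs) t (Finset.mem_insert_self _ _)
          (ne s hs).symm) hx
      rcases h with rfl | rfl | rfl | ⟨s, hs, rfl⟩
      · exact ⟨x, hr, 1, by simp [C], mul_one x⟩
      · exact ⟨r, hr, t, by simp [C], rfl⟩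
      · exact ⟨r, hr, t⁻¹, by simp [C], rfl⟩
      · refine ⟨r, hr, t⁻¹ * s, ?_, rfl⟩
        exact Finset.mem_insert_of_mem (Finset.mem_insert_of_mem (Finset.mem_insert_of_mem
          (Finset.mem_image_of_mem _ hs)))
    have fin := f.mul C.finite_toSet
    refine ⟨fin.subset sub, ?_⟩
    have a1 : Nat.card (Subgroup.closure ((insert t T : Finset G) : Set G)) ≤
        Nat.card (Subgroup.closure (T : Set G)) * C.card := by
      have b1 := Nat.card_mono fin sub
      have b2 := Set.natCard_mul_le (s := (Subgroup.closure (T : Set G) : Set G)) (t := (C : Set G))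
      rw [Nat.card_coe_set_eq (C : Set G), Set.ncard_coe_finset] at b2
      exact b1.trans b2
    rw [Finset.card_insert_of_notMem ht, show T.card + 1 + 2 = (T.card + 2) + 1 by ring,
      Nat.factorial_succ]
    calc 2 * Nat.card (Subgroup.closure ((insert t T : Finset G) : Set G))
        ≤ 2 * (Nat.card (Subgroup.closure (T : Set G)) * (T.card + 3)) :=
          Nat.mul_le_mul_left _ (a1.trans (Nat.mul_le_mul_left _ hC))
      _ = (T.card + 2 + 1) * (2 * Nat.card (Subgroup.closure (T : Set G))) := by ring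
      _ ≤ _ := Nat.mul_le_mul_left _ c

end Cosets

section Std

variable {α : Type} [Fintype α] [DecidableEq α]

/-- The three-cycle `(x y i)`. -/
def cyc (x y i : α) : Perm α := swap x i * swap x y

omit [Fintype α] in
theorem cyc_cube {x y i : α} (hxy : x ≠ y) (hx : i ≠ x) (hy : i ≠ y) : cyc x y i ^ 3 = 1 := by
  ext z
  simp only [cyc, pow_succ, pow_zero, one_mul, Perm.mul_apply, Perm.one_apply, swap_apply_def]
  grind

omit [Fintype α] in
theorem cyc_sq {x y i j : α} (hxy : x ≠ y) (hx : i ≠ x) (hy : i ≠ y) (hx' : j ≠ x) (hy' : j ≠ y)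
    (hij : i ≠ j) : (cyc x y i * cyc x y j) ^ 2 = 1 := by
  ext z
  simp only [cyc, pow_succ, pow_zero, one_mul, Perm.mul_apply, Perm.one_apply, swap_apply_def]
  grind

theorem cyc_mem {x y i : α} (hxy : x ≠ y) (hx : i ≠ x) : cyc x y i ∈ alternatingGroup α := by
  rw [Perm.mem_alternatingGroup, cyc, map_mul, Perm.sign_swap hxy, Perm.sign_swap hx.symm]
  rfl

/-- The cycles `(x y i)` generate the alternating group. -/
theorem alt_le {x y : α} (hxy : x ≠ y) (S : Subgroup (Perm α))
    (hS : ∀ i, i ≠ x → i ≠ y → cyc x y i ∈ S) : alternatingGroup α ≤ S := by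
  have a : ∀ i, i ≠ x → swap x i * swap x y ∈ S := fun i hi => by
    by_cases c : i = y
    · rw [c, swap_mul_self]
      exact one_mem _
    · exact hS i hi c
  have step : ∀ (f : Perm α) (i : α), i ≠ x →
      ((Perm.sign f = 1 → f ∈ S) ∧ (Perm.sign f = -1 → f * swap x y ∈ S)) →
      ((Perm.sign (f * swap x i) = 1 → f * swap x i ∈ S) ∧
        (Perm.sign (f * swap x i) = -1 → f * swap x i * swap x y ∈ S)) := by
    intro f i hi h
    rw [map_mul, Perm.sign_swap hi.symm, mul_neg, mul_one]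
    refine ⟨fun e => ?_, fun e => ?_⟩
    · have := mul_mem (h.2 (neg_eq_iff_eq_neg.1 e)) (inv_mem (a i hi))
      rwa [mul_inv_rev, swap_inv, swap_inv, mul_assoc, ← mul_assoc (swap x y), swap_mul_self,
        one_mul] at this
    · rw [mul_assoc]
      exact mul_mem (h.1 (neg_inj.1 e)) (a i hi)
  have all : ∀ f : Perm α, (Perm.sign f = 1 → f ∈ S) ∧ (Perm.sign f = -1 → f * swap x y ∈ S) := by
    intro f
    induction f using Perm.swap_induction_on' with
    | one => exact ⟨fun _ => one_mem _, fun e => absurd e (by simp)⟩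
    | mul_swap f i j hij ih =>
      by_cases c : i = x
      · subst c
        exact step f j hij.symm ih
      by_cases c' : j = x
      · subst c'
        rw [swap_comm]
        exact step f i c ih
      have e : swap i j = swap x i * swap x j * swap x i := by
        ext z
        simp only [Perm.mul_apply, swap_apply_def]
        grind
      rw [e, ← mul_assoc, ← mul_assoc]
      exact step _ i c (step _ j c' (step f i c ih))
  exact fun f hf => (all f).1 (Perm.mem_alternatingGroup.1 hf)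

end Std

end Car

open Car in
/-- Carmichael, with prescribed generators: `φ (x y i) = t i`. -/
theorem car_hom {G α : Type} [Group G] [Fintype α] [DecidableEq α] {x y : α} (hxy : x ≠ y)
    (t : α → G) (h3 : ∀ i, i ≠ x → i ≠ y → t i ^ 3 = 1)
    (h2 : ∀ i j, i ≠ x → i ≠ y → j ≠ x → j ≠ y → i ≠ j → (t i * t j) ^ 2 = 1) :
    ∃ φ : alternatingGroup α →* G,
      (∀ i (hx : i ≠ x), i ≠ y → φ ⟨cyc x y i, cyc_mem hxy hx⟩ = t i) ∧
      φ.range = Subgroup.closure {g | ∃ i, i ≠ x ∧ i ≠ y ∧ g = t i} := by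
  classical
  let I : Finset α := (Finset.univ.erase x).erase y
  have mI : ∀ i, i ∈ I ↔ i ≠ x ∧ i ≠ y := fun i => by simp [I, and_comm]
  have cI : I.card + 2 = Fintype.card α := by
    have a1 : y ∈ Finset.univ.erase x := by simp [hxy.symm]
    have a2 := Finset.card_erase_add_one a1
    have a3 := Finset.card_erase_add_one (Finset.mem_univ x)
    rw [Finset.card_univ] at a3
    simp only [I]
    omega
  let T : Finset (G × Perm α) := I.image fun i => (t i, cyc x y i)
  have mT : ∀ s, s ∈ T ↔ ∃ i, i ≠ x ∧ i ≠ y ∧ s = (t i, cyc x y i) := fun s => by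
    simp only [T, Finset.mem_image, mI]
    exact ⟨fun ⟨i, h, e⟩ => ⟨i, h.1, h.2, e.symm⟩, fun ⟨i, h, h', e⟩ => ⟨i, ⟨h, h'⟩, e.symm⟩⟩
  obtain ⟨fin, hc⟩ := card_le T
    (fun s hs => by
      obtain ⟨i, h, h', rfl⟩ := (mT s).1 hs
      exact Prod.ext (h3 i h h') (cyc_cube hxy h h'))
    (fun s hs u hu e => by
      obtain ⟨i, h, h', rfl⟩ := (mT s).1 hs
      obtain ⟨j, k, k', rfl⟩ := (mT u).1 hu
      have : i ≠ j := fun c => e (by rw [c])
      exact Prod.ext (h2 i j h h' k k' this) (cyc_sq hxy h h' k k' this))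
  set D := Subgroup.closure (T : Set (G × Perm α)) with hD
  have : Finite D := fin
  have m1 : D.map (MonoidHom.snd G (Perm α)) = alternatingGroup α := by
    refine le_antisymm ?_ (alt_le hxy _ fun i h h' => ⟨(t i, cyc x y i),
      Subgroup.subset_closure ((mT _).2 ⟨i, h, h', rfl⟩), rfl⟩)
    rw [hD, MonoidHom.map_closure, Subgroup.closure_le]
    rintro _ ⟨s, hs, rfl⟩
    obtain ⟨i, h, h', rfl⟩ := (mT s).1 hs
    exact cyc_mem hxy h
  let ρ : D →* alternatingGroup α := ((MonoidHom.snd G (Perm α)).comp D.subtype).codRestrict _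
    fun d => m1.le ⟨d, d.2, rfl⟩
  have sur : Function.Surjective ρ := fun a => by
    obtain ⟨d, hd, e⟩ := m1.ge a.2
    exact ⟨⟨d, hd⟩, Subtype.ext e⟩
  have bij : Function.Bijective ρ := by
    refine sur.bijective_of_nat_card_le ?_
    have : Nontrivial α := ⟨x, y, hxy⟩
    have a1 := two_mul_nat_card_alternatingGroup (α := α)
    rw [Nat.card_perm, Nat.card_eq_fintype_card (α := α), ← cI] at a1
    have a2 : (T.card + 2).factorial ≤ (I.card + 2).factorial :=
      Nat.factorial_le (Nat.add_le_add_right Finset.card_image_le 2)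
    omega
  let e := MulEquiv.ofBijective ρ bij
  refine ⟨((MonoidHom.fst G (Perm α)).comp D.subtype).comp e.symm.toMonoidHom, fun i h h' => ?_, ?_⟩
  · have : e.symm ⟨cyc x y i, cyc_mem hxy h⟩ =
        ⟨(t i, cyc x y i), Subgroup.subset_closure ((mT _).2 ⟨i, h, h', rfl⟩)⟩ :=
      e.symm_apply_eq.2 rfl
    exact congrArg (fun d : D => d.1.1) this
  · rw [MonoidHom.range_comp, MonoidHom.range_eq_top.2 e.symm.surjective, ← MonoidHom.range_eq_map,
      MonoidHom.range_comp, Subgroup.range_subtype, hD, MonoidHom.map_closure]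
    congr 1
    ext g
    constructor
    · rintro ⟨s, hs, rfl⟩
      obtain ⟨i, h, h', rfl⟩ := (mT s).1 hs
      exact ⟨i, h, h', rfl⟩
    · rintro ⟨i, h, h', rfl⟩
      exact ⟨_, (mT _).2 ⟨i, h, h', rfl⟩, rfl⟩

/-- Carmichael: `n - 2` elements of order three with pairwise products of order at most two. -/
theorem car {G : Type} [Group G] {n : ℕ} (hn : 5 ≤ n) (T : Finset G) (hc : T.card + 2 = n)
    (h3 : ∀ t ∈ T, orderOf t = 3) (h2 : ∀ t ∈ T, ∀ u ∈ T, t ≠ u → (t * u) ^ 2 = 1) :
    ∃ φ : alternatingGroup (Fin n) →* G, Function.Injective φ ∧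
      φ.range = Subgroup.closure (T : Set G) := by
  classical
  subst hc
  let e : Fin T.card ≃ T := T.equivFin.symm
  let t : Fin (T.card + 2) → G := Fin.cases 1 (Fin.cases 1 fun k => e k)
  have ex : ∀ i : Fin (T.card + 2), i ≠ 0 → i ≠ 1 → ∃ k : Fin T.card, i = k.succ.succ := by
    intro i h h'
    obtain ⟨j, rfl⟩ := Fin.exists_succ_eq.2 h
    obtain ⟨k, rfl⟩ := Fin.exists_succ_eq.2 (show j ≠ 0 from fun c => h' (by rw [c]; rfl))
    exact ⟨k, rfl⟩
  have ne : ∀ k : Fin T.card, k.succ.succ ≠ 0 ∧ k.succ.succ ≠ 1 := fun k =>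
    ⟨Fin.succ_ne_zero _, Fin.succ_succ_ne_one k⟩
  obtain ⟨φ, h4, h5⟩ := car_hom (x := (0 : Fin (T.card + 2))) (y := 1) Fin.zero_ne_one t
    (fun i h h' => by
      obtain ⟨k, rfl⟩ := ex i h h'
      rw [← h3 _ (e k).2]
      exact pow_orderOf_eq_one _)
    (fun i j h h' k k' hij => by
      obtain ⟨a, rfl⟩ := ex i h h'
      obtain ⟨b, rfl⟩ := ex j k k'
      exact h2 _ (e a).2 _ (e b).2 fun c => hij (by rw [e.injective (Subtype.ext c)]))
  refine ⟨φ, ?_, ?_⟩
  · have := alternatingGroup.isSimpleGroup (α := Fin (T.card + 2)) (by simpa using hn)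
    rcases φ.normal_ker.eq_bot_or_eq_top with h | h
    · exact (MonoidHom.ker_eq_bot_iff φ).1 h
    · let k : Fin T.card := ⟨0, by omega⟩
      have a1 := h4 _ (ne k).1 (ne k).2
      have a2 : φ ⟨_, Car.cyc_mem Fin.zero_ne_one (ne k).1⟩ = 1 :=
        MonoidHom.mem_ker.1 (h.ge (Subgroup.mem_top _))
      have a3 := h3 _ (e k).2
      rw [show ((e k : T) : G) = 1 from a1.symm.trans a2, orderOf_one] at a3
      omega
  · rw [h5]
    congr 1
    ext g
    constructor
    · rintro ⟨i, h, h', rfl⟩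
      obtain ⟨k, rfl⟩ := ex i h h'
      exact (e k).2
    · intro hg
      exact ⟨(e.symm ⟨g, hg⟩).succ.succ, (ne _).1, (ne _).2, by simp [t]⟩

end Pool.Agent.MP_62c071_al.H88
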