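import Mathlib

/-! The theorem of Jordan on cycles of prime length, and subgroups of small index in `A_n`. -/

set_option autoImplicit false

open Equiv MulAction Pointwise

namespace Pool.Agent.MP_62c071_al.H88

namespace Jor

theorem syl {H : Type} [Group H] [Finite H] {r : ℕ} (hr : r.Prime) (h2 : ¬ r ^ 2 ∣ Nat.card H)
    {x y : H} (hx : orderOf x = r) (hy : orderOf y = r) :
    ∃ (b : H) (j : ℤ), b * x * b⁻¹ = y ^ j := by
  have := Fact.mk hr
  have a : ∀ z : H, orderOf z = r →
      IsPGroup r (Subgroup.zpowers z) ∧ ¬ r ∣ (Subgroup.zpowers z).index := fun z hz => by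
    have c : Nat.card (Subgroup.zpowers z) = r := by rw [Nat.card_zpowers, hz]
    refine ⟨IsPGroup.of_card (n := 1) (by rw [c, pow_one]), fun d => h2 ?_⟩
    rw [← (Subgroup.zpowers z).card_mul_index, c, pow_two]
    exact Nat.mul_dvd_mul_left r d
  obtain ⟨b, hb⟩ := exists_smul_eq H ((a x hx).1.toSylow (a x hx).2) ((a y hy).1.toSylow (a y hy).2)
  have e : MulAut.conj b • Subgroup.zpowers x = Subgroup.zpowers y :=
    congrArg (fun P : Sylow r H => (P : Subgroup H)) hb
  have m : MulAut.conj b • x ∈ Subgroup.zpowers y :=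
    e ▸ Subgroup.smul_mem_pointwise_smul x (MulAut.conj b) _ (Subgroup.mem_zpowers x)
  obtain ⟨j, hj⟩ := m
  exact ⟨b, j, hj.symm⟩

variable {α : Type} [Fintype α] [DecidableEq α]

/-- An element that stabilises the support can be corrected to normalise the cycle. -/
theorem frattini (G : Subgroup (Perm α)) {r : ℕ} (hr : r.Prime) {g a : Perm α} (hg : g ∈ G)
    (ho : orderOf g = r) (hs : g.support.card = r) (ha : a ∈ G)
    (hi : ∀ x, x ∉ g.support → a x ∉ g.support) :
    ∃ a' ∈ G, (∀ x, x ∉ g.support → a' x = a x) ∧ ∃ j : ℤ, a' * g * a'⁻¹ = g ^ j := by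
  let f : Perm {x // x ∈ g.support} →* Perm α := Perm.ofSubtype
  have hf : Function.Injective f := Perm.ofSubtype_injective
  have hi' : ∀ x ∈ g.support, a x ∈ g.support := fun x hx => by
    by_contra c
    have := Perm.perm_symm_mapsTo_of_mapsTo a (s := {x | x ∉ g.support}) hi c
    rw [symm_apply_apply] at this
    exact this hx
  obtain ⟨g0, e0⟩ : g ∈ f.range := Perm.mem_range_ofSubtype_iff.2 fun x hx => hx
  obtain ⟨g1, e1⟩ : a * g * a⁻¹ ∈ f.range := Perm.mem_range_ofSubtype_iff.2 fun x hx => by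
    rw [Perm.support_conj, Finset.mem_coe, Finset.mem_map] at hx
    obtain ⟨z, hz, rfl⟩ := hx
    exact hi' z hz
  have c : ¬ r ^ 2 ∣ Nat.card (G.comap f) := fun d => by
    have d' := d.trans (G.comap f).card_subgroup_dvd_card
    rw [Nat.card_perm, Nat.card_eq_fintype_card, Fintype.card_coe, hs] at d'
    obtain ⟨k, rfl⟩ := Nat.exists_eq_add_one_of_ne_zero hr.ne_zero
    rw [Nat.factorial_succ, pow_two] at d'
    have := (hr.dvd_factorial).1 (Nat.dvd_of_mul_dvd_mul_left (Nat.succ_pos k) d')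
    omega
  have o0 : orderOf g0 = r := by rw [← orderOf_injective f hf, e0, ho]
  have o1 : orderOf g1 = r := by
    rw [← orderOf_injective f hf, e1, ← ho]
    exact (MulAut.conj a).orderOf_eq g
  obtain ⟨b, j, hb⟩ := syl (H := G.comap f) hr c
    (x := ⟨g1, by rw [Subgroup.mem_comap, e1]; exact mul_mem (mul_mem ha hg) (inv_mem ha)⟩)
    (y := ⟨g0, by rw [Subgroup.mem_comap, e0]; exact hg⟩)
    (by rw [Subgroup.orderOf_mk, o1]) (by rw [Subgroup.orderOf_mk, o0])
  have hb' : f b * f g1 * (f b)⁻¹ = f g0 ^ j := by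
    rw [← map_inv, ← map_mul, ← map_mul, ← map_zpow]
    exact congrArg f (congrArg Subtype.val hb)
  refine ⟨f b * a, mul_mem b.2 ha, fun x hx => Perm.ofSubtype_apply_of_not_mem _ (hi x hx), j, ?_⟩
  rw [e0, e1] at hb'
  rw [← hb']
  group

omit [Fintype α] in
theorem swap3 {u v w : α} (huv : u ≠ v) (huw : u ≠ w) (hvw : v ≠ w) (x : α) :
    swap u v (swap u w x) = swap u w (swap u v (swap u w (swap u v x))) := by
  simp only [swap_apply_def]
  grind

theorem two_pow_le_choose (j d : ℕ) (h : 2 * j ≤ d) : 2 ^ j ≤ d.choose j := by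
  induction j generalizing d with
  | zero => simp
  | succ j ih =>
    obtain ⟨d, rfl⟩ : ∃ e, d = e + 1 := ⟨d - 1, by omega⟩
    have a := Nat.add_one_mul_choose_eq d j
    have b := ih d (by omega)
    refine Nat.le_of_mul_le_mul_right (c := j + 1) ?_ (Nat.succ_pos j)
    rw [← a, pow_succ]
    calc 2 ^ j * 2 * (j + 1) = 2 * (j + 1) * 2 ^ j := by ring
      _ ≤ _ := Nat.mul_le_mul h b

/-- The alternating group is transitive on the subsets of a given size. -/
theorem alt_trans {O O' : Finset α} (h2 : 2 ≤ O.card) (h : O.card = O'.card) :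
    ∃ σ ∈ alternatingGroup α, σ • O = O' := by
  obtain ⟨σ, hσ⟩ := Perm.exists_map_finset_eq O O' h
  have e : σ • O = O' := by rw [← hσ, Finset.map_eq_image]; rfl
  rcases Int.units_eq_one_or (Perm.sign σ) with s | s
  · exact ⟨σ, s, e⟩
  · obtain ⟨u, hu, v, hv, huv⟩ := Finset.one_lt_card.1 h2
    refine ⟨σ * swap u v, ?_, ?_⟩
    · rw [Perm.mem_alternatingGroup, map_mul, s, Perm.sign_swap huv]
      rfl
    · rw [mul_smul, ← e]
      congr 1
      ext z
      rw [← Finset.inv_smul_mem_iff, swap_inv, Perm.smul_def, swap_apply_def]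
      grind

end Jor

open Jor

variable {α : Type} [Fintype α] [DecidableEq α]

/-- Jordan: a primitive group with a cycle of prime length and three fixed points. -/
theorem jor_prim (G : Subgroup (Perm α)) (hG : IsPreprimitive G α) {r : ℕ} (hr : r.Prime)
    (h2 : r + 3 ≤ Fintype.card α) {g : Perm α} (hg : g ∈ G) (hc : g.IsCycle)
    (hs : g.support.card = r) : alternatingGroup α ≤ G := by
  classical
  have ho : orderOf g = r := hc.orderOf.trans hs
  have r2 := hr.two_le
  obtain ⟨n, hn⟩ : ∃ n, Fintype.card α = r + 3 + n := Nat.exists_eq_add_of_le h2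
  have cΔ : g.supportᶜ.card = n + 3 := by rw [Finset.card_compl, hs]; omega
  have mp : IsMultiplyPreprimitive G α (n + 2 + 2) := by
    refine hG.isMultiplyPreprimitive (s := ((g.support : Set α)ᶜ)) ?_ ?_ ?_
    · rw [← Finset.coe_compl, Set.ncard_coe_finset, cΔ]
    · rw [Nat.card_eq_fintype_card]
      omega
    · have := Perm.isPretransitive_of_isCycle_mem hc hg
      apply IsPreprimitive.of_prime_card
      convert! hr
      rw [Nat.card_eq_fintype_card, Fintype.card_subtype, ← hs]
      apply congr_arg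
      ext x
      simp [SubMulAction.mem_ofFixingSubgroup_iff]
  have mt : IsMultiplyPretransitive G α (n + 3) :=
    isMultiplyPretransitive_of_le (n := n + 2 + 2) (by omega)
      (by rw [Nat.card_eq_fintype_card]; omega)
  have key : ∀ u v, u ∉ g.support → v ∉ g.support →
      ∃ a ∈ G, (∀ x, x ∉ g.support → a x = swap u v x) ∧ ∃ j : ℤ, a * g * a⁻¹ = g ^ j := by
    intro u v hu hv
    let e : Fin (n + 3) ≃ (g.supportᶜ : Finset α) := (Finset.equivFinOfCardEq cΔ).symm
    let x0 : Fin (n + 3) ↪ α := e.toEmbedding.trans (Function.Embedding.subtype _)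
    obtain ⟨a, ha⟩ := exists_smul_eq G x0 (x0.trans (swap u v).toEmbedding)
    have ha' : ∀ x, x ∉ g.support → a.1 x = swap u v x := fun x hx => by
      have := DFunLike.congr_fun ha (e.symm ⟨x, Finset.mem_compl.2 hx⟩)
      simpa [x0, Function.Embedding.smul_apply, Subgroup.smul_def] using this
    obtain ⟨a', m, h, j⟩ := frattini G hr hg ho hs a.2 fun x hx => by
      rw [ha' x hx, swap_apply_def]
      grind
    exact ⟨a', m, fun x hx => (h x hx).trans (ha' x hx), j⟩
  obtain ⟨u, v, w, hu, hv, hw, huv, huw, hvw⟩ :=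
    Finset.two_lt_card_iff.1 (show 2 < g.supportᶜ.card by omega)
  rw [Finset.mem_compl] at hu hv hw
  obtain ⟨a, ma, ha, i, hi⟩ := key u v hu hv
  obtain ⟨b, mb, hb, j, hj⟩ := key u w hu hw
  have e1 : (a * b) * g * (a * b)⁻¹ = (b * a) * g * (b * a)⁻¹ := by
    calc (a * b) * g * (a * b)⁻¹ = a * (b * g * b⁻¹) * a⁻¹ := by group
      _ = (g ^ i) ^ j := by rw [hj, ← conj_zpow, hi]
      _ = (g ^ j) ^ i := by rw [← zpow_mul, mul_comm, zpow_mul]
      _ = b * (a * g * a⁻¹) * b⁻¹ := by rw [hi, ← conj_zpow, hj]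
      _ = _ := by group
  set c := (b * a)⁻¹ * (a * b) with hcd
  have cm : Commute c g := by
    have : c * g = (b * a)⁻¹ * ((a * b) * g * (a * b)⁻¹) * (a * b) := by rw [hcd]; group
    rw [Commute, SemiconjBy, this, e1, hcd]
    group
  have sw : ∀ p q x, p ∉ g.support → q ∉ g.support → x ∉ g.support → swap p q x ∉ g.support := by
    intro p q x _ _ _
    rw [swap_apply_def]
    grind
  have cΔ' : ∀ x, x ∉ g.support → c x = (swap u w * swap u v) x := fun x hx => by
    rw [hcd, Perm.mul_apply, Perm.inv_eq_iff_eq]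
    simp only [Perm.mul_apply]
    rw [hb x hx, ha _ (sw u w x hu hw hx), ha _ (sw u w _ hu hw (sw u v x hu hv hx)),
      hb _ (sw u v _ hu hv (sw u w _ hu hw (sw u v x hu hv hx)))]
    exact swap3 huv huw hvw x
  obtain ⟨x0, hx0⟩ := Finset.card_pos.1 (show 0 < g.support.card by omega)
  have mc : c ∈ G := mul_mem (inv_mem (mul_mem mb ma)) (mul_mem ma mb)
  clear_value c
  have hx1 : g (c x0) ≠ c x0 := fun e => Perm.mem_support.1 hx0 (c.injective (by
    rw [← Perm.mul_apply c g, cm.eq, Perm.mul_apply, e]))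
  obtain ⟨k, hk⟩ := hc.exists_zpow_eq (Perm.mem_support.1 hx0) hx1
  have e2 : c = g ^ k * (swap u w * swap u v) := by
    ext x
    by_cases hx : x ∈ g.support
    · obtain ⟨l, rfl⟩ := hc.exists_zpow_eq (Perm.mem_support.1 hx0) (Perm.mem_support.1 hx)
      have n1 : (g ^ l) x0 ≠ u := fun e => hu (e ▸ hx)
      have n2 : (g ^ l) x0 ≠ v := fun e => hv (e ▸ hx)
      have n3 : (g ^ l) x0 ≠ w := fun e => hw (e ▸ hx)
      rw [Perm.mul_apply, Perm.mul_apply, swap_apply_of_ne_of_ne n1 n2, swap_apply_of_ne_of_ne n1 n3,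
        ← Perm.mul_apply c, (cm.zpow_right l).eq, Perm.mul_apply, ← hk, ← Perm.mul_apply,
        ← Perm.mul_apply (g ^ k), ← zpow_add, ← zpow_add, add_comm]
    · rw [cΔ' x hx, Perm.mul_apply (g ^ k)]
      exact (Perm.zpow_apply_eq_self_of_apply_eq_self
        (Perm.notMem_support.1 (sw u w _ hu hw (sw u v x hu hv hx))) k).symm
  refine Perm.alternatingGroup_le_of_isPreprimitive_of_isThreeCycle_mem hG
    (Perm.isThreeCycle_swap_mul_swap_same huw huv hvw.symm) ?_
  have : swap u w * swap u v = (g ^ k)⁻¹ * c := by rw [e2]; group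
  rw [this]
  exact mul_mem (inv_mem (zpow_mem hg k)) mc

/-- A transitive group with an element of prime order `r`, `d / 2 < r ≤ d - 3`. -/
theorem jor (G : Subgroup (Perm α)) (hG : IsPretransitive G α) {r : ℕ} (hr : r.Prime)
    (h1 : Fintype.card α < 2 * r) (h2 : r + 3 ≤ Fintype.card α) {g : Perm α} (hg : g ∈ G)
    (ho : orderOf g = r) : alternatingGroup α ≤ G := by
  classical
  have hc : g.IsCycle := Perm.isCycle_of_prime_order' (ho ▸ hr) (ho ▸ h1)
  have hs : g.support.card = r := hc.orderOf.symm.trans ho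
  refine jor_prim G ?_ hr h2 hg hc hs
  have := Perm.isPretransitive_of_isCycle_mem hc hg
  have : IsPreprimitive (fixingSubgroup G (g.support : Set α)ᶜ)
      (SubMulAction.ofFixingSubgroup G (g.support : Set α)ᶜ) := by
    apply IsPreprimitive.of_prime_card
    convert! hr
    rw [Nat.card_eq_fintype_card, Fintype.card_subtype, ← hs]
    apply congr_arg
    ext x
    simp [SubMulAction.mem_ofFixingSubgroup_iff]
  refine IsPreprimitive.of_card_lt
    (f := SubMulAction.ofFixingSubgroup_equivariantMap G (g.support : Set α)ᶜ) ?_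
  have e : Set.range (SubMulAction.ofFixingSubgroup_equivariantMap G (g.support : Set α)ᶜ) =
      (g.support : Set α) := by
    ext x
    exact ⟨fun ⟨y, e⟩ => e ▸ not_not.1 y.2, fun h => ⟨⟨x, not_not.2 h⟩, rfl⟩⟩
  rwa [e, Set.ncard_coe_finset, hs, Nat.card_eq_fintype_card]

/-- A subgroup of small index prime to `r` contains the alternating group of a large orbit. -/
theorem nat (U : Subgroup (Perm α)) (hU : U ≤ alternatingGroup α) {r e : ℕ} (hr : r.Prime)
    (hi : U.relIndex (alternatingGroup α) < 2 ^ (e + 1))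
    (hd : ¬ r ∣ U.relIndex (alternatingGroup α)) (h1 : Fintype.card α < 2 * r)
    (h2 : r + e + 3 ≤ Fintype.card α) : ∃ O : Finset α, Fintype.card α ≤ O.card + e ∧
      ∀ s ∈ alternatingGroup α, s.support ⊆ O → s ∈ U := by
  classical
  have := Fact.mk hr
  have r2 := hr.two_le
  have : Nontrivial α := Fintype.one_lt_card_iff_nontrivial.1 (by omega)
  have d1 : r ∣ Nat.card U := by
    have a1 := two_mul_nat_card_alternatingGroup (α := α)
    have a2 : r ∣ 2 * Nat.card (alternatingGroup α) := by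
      rw [a1, Nat.card_perm, Nat.card_eq_fintype_card]
      exact hr.dvd_factorial.2 (by omega)
    have a3 : r ∣ Nat.card (alternatingGroup α) := (hr.dvd_mul.1 a2).resolve_left fun c => by
      have := Nat.le_of_dvd two_pos c
      omega
    rw [← (U.subgroupOf (alternatingGroup α)).card_mul_index,
      Nat.card_congr (Subgroup.subgroupOfEquivOfLe hU).toEquiv] at a3
    exact (hr.dvd_mul.1 a3).resolve_right hd
  obtain ⟨⟨g, hg⟩, ho⟩ := exists_prime_orderOf_dvd_card' r d1
  rw [Subgroup.orderOf_mk] at ho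
  have hc : g.IsCycle := Perm.isCycle_of_prime_order' (ho ▸ hr) (ho ▸ h1)
  have hs : g.support.card = r := hc.orderOf.symm.trans ho
  obtain ⟨x0, hx0⟩ := Finset.card_pos.1 (show 0 < g.support.card by omega)
  let O : Finset α := Finset.univ.filter fun y => ∃ u ∈ U, u x0 = y
  have mO : ∀ y, y ∈ O ↔ ∃ u ∈ U, u x0 = y := fun y => by simp [O]
  have inv : ∀ u ∈ U, ∀ y ∈ O, u y ∈ O := fun u hu y hy => by
    obtain ⟨v, hv, rfl⟩ := (mO y).1 hy
    exact (mO _).2 ⟨u * v, mul_mem hu hv, rfl⟩
  have sub : g.support ⊆ O := fun y hy => by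
    obtain ⟨i, hi⟩ := hc.exists_zpow_eq (Perm.mem_support.1 hx0) (Perm.mem_support.1 hy)
    exact (mO y).2 ⟨g ^ i, zpow_mem hg i, hi⟩
  have c1 : r ≤ O.card := hs ▸ Finset.card_le_card sub
  have c2 : O.card ≤ Fintype.card α := O.card_le_univ
  have c3 : Fintype.card α ≤ O.card + e := by
    have a1 : U.subgroupOf (alternatingGroup α) ≤ stabilizer (alternatingGroup α) O := by
      intro u hu
      rw [mem_stabilizer_iff]
      refine Finset.eq_of_subset_of_card_le (fun y hy => ?_) (Finset.card_smul_finset u O).ge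
      obtain ⟨z, hz, rfl⟩ := Finset.mem_smul_finset.1 hy
      exact inv u.1 hu z hz
    have a2 := Nat.le_of_dvd (Nat.pos_of_ne_zero Subgroup.index_ne_zero_of_finite)
      (Subgroup.index_dvd_of_le a1)
    rw [index_stabilizer] at a2
    have a3 : ((Finset.univ.powersetCard O.card : Finset (Finset α)) : Set (Finset α)) ⊆
        orbit (alternatingGroup α) O := fun O' hO' => by
      obtain ⟨σ, hσ, e⟩ := alt_trans (O := O) (O' := O') (by omega)
        (Finset.mem_powersetCard.1 hO').2.symm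
      exact ⟨⟨σ, hσ⟩, e⟩
    have a4 := Set.ncard_le_ncard a3
    rw [Set.ncard_coe_finset, Finset.card_powersetCard, Finset.card_univ,
      ← Nat.choose_symm c2] at a4
    have a5 := two_pow_le_choose (Fintype.card α - O.card) (Fintype.card α) (by omega)
    have a6 := (Nat.pow_lt_pow_iff_right one_lt_two).1 ((a5.trans (a4.trans a2)).trans_lt hi)
    omega
  let f : Perm {x // x ∈ O} →* Perm α := Perm.ofSubtype
  have lift : ∀ s : Perm α, s.support ⊆ O → ∃ s0, f s0 = s := fun s h =>
    Perm.mem_range_ofSubtype_iff.2 fun x hx => h hx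
  have val : ∀ (s0 : Perm {x // x ∈ O}) (x : {x // x ∈ O}), f s0 x = s0 x := fun s0 x =>
    Perm.ofSubtype_apply_coe s0 x
  obtain ⟨g0, e0⟩ := lift g sub
  have tr : IsPretransitive (U.comap f) {x // x ∈ O} := by
    have base : ∀ y : {x // x ∈ O}, ∃ s : U.comap f, s • (⟨x0, sub hx0⟩ : {x // x ∈ O}) = y := by
      rintro ⟨y, hy⟩
      obtain ⟨u, hu, rfl⟩ := (mO y).1 hy
      obtain ⟨g1, e1⟩ := lift (u * g * u⁻¹) fun x hx => by
        rw [Perm.support_conj, Finset.mem_map] at hx
        obtain ⟨z, hz, rfl⟩ := hx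
        exact inv u hu z (sub hz)
      obtain ⟨z, hz⟩ : (g.support ∩ (u * g * u⁻¹).support).Nonempty := by
        have a1 := Finset.card_union_add_card_inter g.support (u * g * u⁻¹).support
        have a2 := (g.support ∪ (u * g * u⁻¹).support).card_le_univ
        rw [Perm.card_support_conj] at a1
        exact Finset.card_pos.1 (by omega)
      rw [Finset.mem_inter] at hz
      obtain ⟨i, hi⟩ := hc.exists_zpow_eq (Perm.mem_support.1 hx0) (Perm.mem_support.1 hz.1)
      obtain ⟨j, hj⟩ := (hc.conj (g := u)).exists_zpow_eq (Perm.mem_support.1 hz.2)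
        (y := u x0) (by simpa using Perm.mem_support.1 hx0)
      refine ⟨⟨g1 ^ j * g0 ^ i, ?_⟩, Subtype.ext ?_⟩
      · rw [Subgroup.mem_comap, map_mul, map_zpow, map_zpow, e0, e1]
        exact mul_mem (zpow_mem (mul_mem (mul_mem hu hg) (inv_mem hu)) j) (zpow_mem hg i)
      · refine (val (g1 ^ j * g0 ^ i) ⟨x0, sub hx0⟩).symm.trans ?_
        rw [map_mul, map_zpow, map_zpow, e0, e1, Perm.mul_apply, hi, hj]
    refine ⟨fun y z => ?_⟩
    obtain ⟨s, rfl⟩ := base y
    obtain ⟨t, rfl⟩ := base z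
    exact ⟨t * s⁻¹, by rw [mul_smul, inv_smul_smul]⟩
  have J := jor (U.comap f) tr hr (by rw [Fintype.card_coe]; omega)
    (by rw [Fintype.card_coe]; omega) (g := g0) (by rw [Subgroup.mem_comap, e0]; exact hg)
    (by rw [← orderOf_injective f Perm.ofSubtype_injective, e0, ho])
  refine ⟨O, c3, fun s hs hO => ?_⟩
  obtain ⟨s0, rfl⟩ := lift s hO
  exact J (Perm.mem_alternatingGroup.2 ((Perm.sign_ofSubtype s0).symm.trans hs))

end Pool.Agent.MP_62c071_al.H88
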